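import Pool.Agent.Helper17K9.EX.Stm

/-!
# [CNA] counting the vectors with given absolute values and given sign of the product
-/

set_option autoImplicit false

namespace Pool.Agent.Helper36K9.EX

open Finset Pool.Agent.Helper17K9.EX

theorem exists_perm {n : ℕ} (u u0 : Fin n → ℕ)
    (h : (univ : Finset (Fin n)).val.map u = (univ : Finset (Fin n)).val.map u0) :
    ∃ g : Equiv.Perm (Fin n), u0 ∘ g = u := by
  classical
  have h1 : ∀ c, Fintype.card {a // u a = c} = Fintype.card {a // u0 a = c} := by
    intro c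
    have h2 := congrArg (Multiset.count c) h
    rw [Multiset.count_map, Multiset.count_map] at h2
    rw [Fintype.card_subtype, Fintype.card_subtype]
    have h3 : ∀ w : Fin n → ℕ, (Multiset.filter (fun a => c = w a) univ.val).card =
        (univ.filter (fun a => w a = c)).card := by
      intro w
      rw [Finset.card_def, Finset.filter_val]
      congr 1
      exact Multiset.filter_congr (fun a _ => eq_comm)
    rw [h3, h3] at h2
    exact h2
  have e := fun c => Fintype.equivOfCardEq (h1 c)
  refine ⟨Equiv.ofFiberEquiv e, ?_⟩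
  funext a
  exact Equiv.ofFiberEquiv_map e a

/-- the arrangements of the values of `u0` -/
def arrs {n : ℕ} (u0 : Fin n → ℕ) : Finset (Fin n → ℕ) :=
  (univ : Finset (Equiv.Perm (Fin n))).image (fun g : Equiv.Perm (Fin n) => u0 ∘ g)

theorem mem_arrs {n : ℕ} (u0 u : Fin n → ℕ) : u ∈ arrs u0 ↔
    (univ : Finset (Fin n)).val.map u = (univ : Finset (Fin n)).val.map u0 := by
  unfold arrs
  rw [mem_image]
  constructor
  · rintro ⟨g, -, rfl⟩
    rw [← Multiset.map_map]
    congr 1
    exact Multiset.map_univ_val_equiv g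
  · intro h
    obtain ⟨g, hg⟩ := exists_perm u u0 h
    exact ⟨g, mem_univ _, hg⟩

theorem card_arrs {n : ℕ} (μ : List ℕ) (u0 : Fin n → ℕ)
    (h0 : (univ : Finset (Fin n)).val.map u0 = (μ : Multiset ℕ)) :
    (arrs u0).card * (μ.dedup.map (fun x => Nat.factorial (μ.count x))).prod =
      Nat.factorial n := by
  classical
  have h1 : (univ : Finset (Equiv.Perm (Fin n))).card = Nat.factorial n := by
    rw [card_univ, Fintype.card_perm, Fintype.card_fin]
  have h2 : (univ : Finset (Equiv.Perm (Fin n))).card =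
      ∑ u ∈ arrs u0, (univ.filter (fun g : Equiv.Perm (Fin n) => u0 ∘ g = u)).card := by
    apply card_eq_sum_card_fiberwise
    intro g _
    exact mem_image_of_mem _ (mem_univ g)
  have h3 : ∀ u ∈ arrs u0, (univ.filter (fun g : Equiv.Perm (Fin n) => u0 ∘ g = u)).card =
      (univ.filter (fun g : Equiv.Perm (Fin n) => u0 ∘ g = u0)).card := by
    intro u hu
    unfold arrs at hu
    rw [mem_image] at hu
    obtain ⟨e, -, rfl⟩ := hu
    apply card_nbij' (fun g : Equiv.Perm (Fin n) => g * e⁻¹) (fun g : Equiv.Perm (Fin n) => g * e)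
    · intro g hg
      have hg' := (mem_filter.1 hg).2
      refine mem_filter.2 ⟨mem_univ _, ?_⟩
      funext a
      have := congrFun hg' (e⁻¹ a)
      simpa using this
    · intro g hg
      have hg' := (mem_filter.1 hg).2
      refine mem_filter.2 ⟨mem_univ _, ?_⟩
      funext a
      exact congrFun hg' (e a)
    · intro g _
      simp
    · intro g _
      simp
  have h4 : (univ.filter (fun g : Equiv.Perm (Fin n) => u0 ∘ g = u0)).card =
      (μ.dedup.map (fun x => Nat.factorial (μ.count x))).prod := by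
    rw [← Fintype.card_subtype, DomMulAct.stabilizer_card' u0]
    have h5 : ∀ i, Fintype.card {a // u0 a = i} = μ.count i := by
      intro i
      have h6 := congrArg (Multiset.count i) h0
      rw [Multiset.count_map, Multiset.coe_count] at h6
      rw [Fintype.card_subtype, ← h6, Finset.card_def, Finset.filter_val]
      congr 1
      exact Multiset.filter_congr (fun a _ => eq_comm)
    have h6 : univ.image u0 = μ.dedup.toFinset := by
      ext x
      rw [List.mem_toFinset, List.mem_dedup, mem_image]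
      have h7 : x ∈ μ ↔ x ∈ (μ : Multiset ℕ) := Iff.rfl
      rw [h7, ← h0, Multiset.mem_map]
      constructor
      · rintro ⟨a, -, ha⟩
        exact ⟨a, mem_univ_val a, ha⟩
      · rintro ⟨a, -, ha⟩
        exact ⟨a, mem_univ a, ha⟩
    rw [h6, List.prod_toFinset _ (List.nodup_dedup μ)]
    congr 1
    apply List.map_congr_left
    intro x _
    rw [h5]
  rw [← h1, h2, sum_congr rfl h3, sum_const, smul_eq_mul, h4]

/-- the vectors with given absolute values -/
def W (u : Fin 8 → ℕ) : Finset (Fin 8 → ℤ) :=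
  Fintype.piFinset fun i => ({(u i : ℤ), -(u i : ℤ)} : Finset ℤ)

theorem mem_W (u : Fin 8 → ℕ) (v : Fin 8 → ℤ) : v ∈ W u ↔ (fun i => (v i).natAbs) = u := by
  unfold W
  rw [Fintype.mem_piFinset, funext_iff]
  refine forall_congr' fun i => ?_
  rw [mem_insert, mem_singleton, Int.natAbs_eq_iff]

theorem card_pair (a : ℕ) : ({(a : ℤ), -(a : ℤ)} : Finset ℤ).card = if a = 0 then 1 else 2 := by
  split_ifs with h
  · rw [h]
    simp
  · rw [card_pair_eq_two_iff]
    have : (a : ℤ) ≠ 0 := by exact_mod_cast h
    omega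

theorem card_W (u : Fin 8 → ℕ) : (W u).card = 2 ^ (8 - (univ.filter fun i => u i = 0).card) := by
  unfold W
  rw [Fintype.card_piFinset]
  have h1 : ∀ i, ({(u i : ℤ), -(u i : ℤ)} : Finset ℤ).card = if u i = 0 then 1 else 2 :=
    fun i => card_pair (u i)
  rw [prod_congr rfl fun i _ => h1 i, prod_ite, prod_const_one, one_mul, prod_const]
  congr 1
  have h2 := card_filter_add_card_filter_not (s := (univ : Finset (Fin 8))) (fun i => u i = 0)
  rw [card_univ, Fintype.card_fin] at h2
  omega

theorem sum_W (u : Fin 8 → ℕ) : ∑ v ∈ W u, ∏ i, (v i).sign = 0 := by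
  unfold W
  have h1 := (prod_univ_sum (fun i : Fin 8 => ({(u i : ℤ), -(u i : ℤ)} : Finset ℤ))
    (fun _ x => x.sign)).symm
  rw [h1]
  apply prod_eq_zero (mem_univ (0 : Fin 8))
  by_cases h : u 0 = 0
  · rw [h]
    simp
  · rw [sum_pair (by
      have : (u 0 : ℤ) ≠ 0 := by exact_mod_cast h
      omega)]
    rw [Int.sign_neg]
    ring

theorem sgn_prod (v : Fin 8 → ℤ) : sgn v = ∏ i, (v i).sign := by
  unfold sgn
  have h : ∀ s : Finset (Fin 8), (∏ i ∈ s, v i).sign = ∏ i ∈ s, (v i).sign := by
    intro s
    induction s using Finset.induction_on with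
    | empty => simp
    | insert a s ha ih => rw [prod_insert ha, prod_insert ha, Int.sign_mul, ih]
  exact h univ

/-- all coordinates nonzero: half of the vectors -/
theorem card_half (u : Fin 8 → ℕ) (hu : ∀ i, u i ≠ 0) (σ : ℤ) (hσ : σ = 1 ∨ σ = -1) :
    ((W u).filter (fun v => sgn v = σ)).card = 2 ^ 7 := by
  classical
  have h1 : (W u).card = 2 ^ 8 := by
    rw [card_W]
    have : (univ.filter fun i => u i = 0) = (∅ : Finset (Fin 8)) := by
      rw [filter_eq_empty_iff]
      intro i _
      exact hu i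
    rw [this]
    simp
  have h2 : ∀ v ∈ W u, sgn v = 1 ∨ sgn v = -1 := by
    intro v hv
    unfold sgn
    have h3 : ∏ i, v i ≠ 0 := by
      rw [prod_ne_zero_iff]
      intro i _ h4
      have h5 := congrFun ((mem_W u v).1 hv) i
      rw [h4] at h5
      exact hu i h5.symm
    rcases lt_or_gt_of_ne h3 with h4 | h4
    · right
      exact Int.sign_eq_neg_one_of_neg h4
    · left
      exact Int.sign_eq_one_of_pos h4
  have h3 : ((W u).filter (fun v => sgn v = 1)).card + ((W u).filter (fun v => ¬ sgn v = 1)).card =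
      (W u).card := card_filter_add_card_filter_not _
  have h4 : (W u).filter (fun v => ¬ sgn v = 1) = (W u).filter (fun v => sgn v = -1) := by
    apply filter_congr
    intro v hv
    rcases h2 v hv with h | h <;> rw [h] <;> norm_num
  have h5 : ∑ v ∈ W u, sgn v = 0 := by
    rw [← sum_W u]
    exact sum_congr rfl fun v _ => sgn_prod v
  have h6 : ∑ v ∈ W u, sgn v = (((W u).filter (fun v => sgn v = 1)).card : ℤ) -
      ((W u).filter (fun v => sgn v = -1)).card := by
    rw [← sum_filter_add_sum_filter_not (W u) (fun v => sgn v = 1), h4]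
    have e1 : ∑ v ∈ (W u).filter (fun v => sgn v = 1), sgn v =
        (((W u).filter (fun v => sgn v = 1)).card : ℤ) := by
      rw [sum_congr rfl (fun v hv => (mem_filter.1 hv).2), sum_const, nsmul_eq_mul, mul_one]
    have e2 : ∑ v ∈ (W u).filter (fun v => sgn v = -1), sgn v =
        -(((W u).filter (fun v => sgn v = -1)).card : ℤ) := by
      rw [sum_congr rfl (fun v hv => (mem_filter.1 hv).2), sum_const, nsmul_eq_mul]
      ring
    rw [e1, e2]
    ring
  rw [h4, h1] at h3
  rw [h5] at h6
  rcases hσ with rfl | rfl <;> omega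

theorem cna : S_CNA := by
  classical
  intro B μ σ hl hB hσ
  obtain ⟨u0, hu0⟩ : ∃ u0 : Fin 8 → ℕ, (univ : Finset (Fin 8)).val.map u0 = (μ : Multiset ℕ) := by
    refine ⟨fun i => μ.get (i.cast hl.symm), ?_⟩
    rw [Fin.univ_val_map, ← List.ofFn_congr hl μ.get, List.ofFn_get]
  have hms : ∀ v : Fin 8 → ℤ, ms v = (μ : Multiset ℕ) ↔ (fun i => (v i).natAbs) ∈ arrs u0 := by
    intro v
    rw [mem_arrs, hu0]
    rfl
  obtain ⟨F, hF⟩ : ∃ F : Finset (Fin 8 → ℤ), F = (Fintype.piFinset fun _ : Fin 8 => Icc (-B) B).filter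
    (fun v => ms v = (μ : Multiset ℕ) ∧ sgn v = σ) := ⟨_, rfl⟩
  rw [← hF]
  have h1 : F.card = ∑ u ∈ arrs u0, (F.filter (fun v => (fun i => (v i).natAbs) = u)).card := by
    apply card_eq_sum_card_fiberwise
    intro v hv
    rw [hF] at hv
    exact (hms v).1 (mem_filter.1 hv).2.1
  have hcnt : ∀ u ∈ arrs u0, (univ.filter fun i => u i = 0).card = μ.count 0 := by
    intro u hu
    have h2 := congrArg (Multiset.count 0) ((mem_arrs u0 u).1 hu)
    rw [hu0, Multiset.count_map, Multiset.coe_count] at h2
    rw [← h2, Finset.card_def, Finset.filter_val]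
    congr 1
    exact Multiset.filter_congr (fun a _ => eq_comm)
  have h2 : ∀ u ∈ arrs u0, (F.filter (fun v => (fun i => (v i).natAbs) = u)).card =
      if 0 ∈ μ then 2 ^ (8 - μ.count 0) else 2 ^ 7 := by
    intro u hu
    have h3 : F.filter (fun v => (fun i => (v i).natAbs) = u) =
        (W u).filter (fun v => sgn v = σ) := by
      ext v
      rw [mem_filter, mem_filter, mem_W, hF, mem_filter, hms]
      constructor
      · rintro ⟨⟨-, -, h4⟩, h5⟩
        exact ⟨h5, h4⟩
      · rintro ⟨h5, h4⟩
        refine ⟨⟨?_, by rw [h5]; exact hu, h4⟩, h5⟩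
        rw [Fintype.mem_piFinset]
        intro i
        have h6 : (v i).natAbs ∈ μ := by
          have h7 : (v i).natAbs ∈ (μ : Multiset ℕ) := by
            rw [← hu0, ← (mem_arrs u0 u).1 hu, Multiset.mem_map]
            exact ⟨i, mem_univ_val i, by rw [← h5]⟩
          exact h7
        have h7 := hB _ h6
        rw [mem_Icc]
        omega
    rw [h3]
    have hmem : 0 ∈ μ ↔ ∃ i, u i = 0 := by
      have h7 : 0 ∈ μ ↔ 0 ∈ (μ : Multiset ℕ) := Iff.rfl
      rw [h7, ← hu0, ← (mem_arrs u0 u).1 hu, Multiset.mem_map]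
      constructor
      · rintro ⟨a, -, ha⟩
        exact ⟨a, ha⟩
      · rintro ⟨a, ha⟩
        exact ⟨a, mem_univ_val a, ha⟩
    split_ifs with h0
    · have hσ0 : σ = 0 := by
        rcases hσ with h | h
        · exact h.1
        · exact absurd h0 h.2
      rw [filter_true_of_mem, card_W, hcnt u hu]
      intro v hv
      obtain ⟨i, hi⟩ := hmem.1 h0
      have h5 := congrFun ((mem_W u v).1 hv) i
      have h6 : v i = 0 := by
        have : (v i).natAbs = u i := h5
        rw [hi] at this
        exact Int.natAbs_eq_zero.1 this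
      unfold sgn
      rw [prod_eq_zero (mem_univ i) h6, hσ0]
      rfl
    · have hσ1 : σ = 1 ∨ σ = -1 := by
        rcases hσ with h | h
        · exact absurd h.2 h0
        · exact h.1
      exact card_half u (fun i hi => h0 (hmem.2 ⟨i, hi⟩)) σ hσ1
  have h3 := card_arrs μ u0 hu0
  have h4 : 0 < (μ.dedup.map (fun x => Nat.factorial (μ.count x))).prod := by
    apply List.prod_pos
    intro x hx
    obtain ⟨y, -, rfl⟩ := List.mem_map.1 hx
    exact Nat.factorial_pos _
  have h5 : Nat.factorial 8 / (μ.dedup.map (fun x => Nat.factorial (μ.count x))).prod =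
      (arrs u0).card := Nat.div_eq_of_eq_mul_left h4 h3.symm
  have h6 : cnt μ = (arrs u0).card * (if 0 ∈ μ then 2 ^ (8 - μ.count 0) else 2 ^ 7) := by
    unfold cnt
    rw [h5]
  rw [h6, h1, sum_congr rfl h2, sum_const, smul_eq_mul]

end Pool.Agent.Helper36K9.EX
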