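import Pool.Agent.Helper17K9.EX.Stm

/-!
# [EVL] sums over `X` as sums over the table
-/

set_option autoImplicit false

namespace Pool.Agent.Helper36K9.EX

open Finset Pool.Agent.Helper17K9.EX

theorem tab_nodup : Tab.Nodup := by decide +kernel

theorem tab_sorted : ∀ τ ∈ Tab, τ.1.Pairwise (fun a b => b ≤ a) := by decide +kernel

theorem tab_len : ∀ τ ∈ Tab, τ.1.length = 8 := by decide +kernel

theorem tab_le : ∀ τ ∈ Tab, ∀ x ∈ τ.1, (x : ℤ) ≤ 29 := by decide +kernel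

theorem tab_sgn : ∀ τ ∈ Tab, (τ.2 = 0 ∧ 0 ∈ τ.1 ∨ (τ.2 = 1 ∨ τ.2 = -1) ∧ 0 ∉ τ.1) := by
  decide +kernel

/-- the class of a line of the table -/
def cl (τ : List ℕ × ℤ) : Multiset ℕ × ℤ := ((τ.1 : Multiset ℕ), τ.2)

theorem cl_nodup_of (T : List (List ℕ × ℤ)) (h0 : T.Nodup)
    (hs : ∀ τ ∈ T, τ.1.Pairwise (fun a b => b ≤ a)) : (T.map cl).Nodup := by
  rw [List.nodup_map_iff_inj_on h0]
  intro τ hτ τ' hτ' h
  have h1 : (τ.1 : Multiset ℕ) = (τ'.1 : Multiset ℕ) := congrArg (fun z : Multiset ℕ × ℤ => z.1) h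
  have h2 : τ.2 = τ'.2 := congrArg (fun z : Multiset ℕ × ℤ => z.2) h
  have h3 : τ.1 = τ'.1 := by
    refine List.Perm.eq_of_pairwise (fun a b _ _ h5 h6 => le_antisymm h6 h5) (hs τ hτ)
      (hs τ' hτ') (Multiset.coe_eq_coe.1 h1)
  exact Prod.ext h3 h2

theorem gen (T : List (List ℕ × ℤ)) (hnd : (T.map cl).Nodup) (Y : Finset (Fin 8 → ℤ))
    (g : Multiset ℕ × ℤ → ℤ) (key : (Fin 8 → ℤ) → Multiset ℕ × ℤ)
    (hY : ∀ v ∈ Y, key v ∈ T.map cl) (c : List ℕ × ℤ → ℤ)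
    (hc : ∀ τ ∈ T, ((Y.filter (fun v => key v = cl τ)).card : ℤ) = c τ) :
    ∑ v ∈ Y, g (key v) = (T.map (fun τ => c τ * g (cl τ))).sum := by
  classical
  have h1 : ∀ v ∈ Y, key v ∈ (T.map cl).toFinset := fun v hv => List.mem_toFinset.2 (hY v hv)
  rw [← sum_fiberwise_of_maps_to h1, List.sum_toFinset _ hnd, List.map_map]
  apply congrArg List.sum
  apply List.map_congr_left
  intro τ hτ
  change ∑ v ∈ Y with key v = cl τ, g (key v) = _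
  rw [← hc τ hτ, sum_congr rfl (fun v hv => congrArg g (mem_filter.1 hv).2), sum_const,
    nsmul_eq_mul]

set_option maxRecDepth 20000 in
theorem evl_of (T : List (List ℕ × ℤ)) (Y : Finset (Fin 8 → ℤ))
    (hX : Y = (Fintype.piFinset fun _ => Finset.Icc (-29 : ℤ) 29).filter
      (fun v => ∃ τ ∈ T, ms v = (τ.1 : Multiset ℕ) ∧ sgn v = τ.2))
    (h0 : T.Nodup) (hs : ∀ τ ∈ T, τ.1.Pairwise (fun a b => b ≤ a))
    (hlen : ∀ τ ∈ T, τ.1.length = 8) (hle : ∀ τ ∈ T, ∀ x ∈ τ.1, (x : ℤ) ≤ 29)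
    (hsg : ∀ τ ∈ T, (τ.2 = 0 ∧ 0 ∈ τ.1 ∨ (τ.2 = 1 ∨ τ.2 = -1) ∧ 0 ∉ τ.1))
    (hc : S_CNA) (ψ : Multiset ℕ → ℤ → ℤ) :
    ∑ v ∈ Y, ψ (ms v) (sgn v) =
      (T.map (fun τ => (cnt τ.1 : ℤ) * ψ (τ.1 : Multiset ℕ) τ.2)).sum := by
  classical
  have hm : ∀ v, v ∈ Y ↔ v ∈ (Fintype.piFinset fun _ : Fin 8 => Finset.Icc (-29 : ℤ) 29) ∧
      ∃ τ ∈ T, ms v = (τ.1 : Multiset ℕ) ∧ sgn v = τ.2 := by
    intro v
    rw [hX]
    exact mem_filter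
  refine gen T (cl_nodup_of T h0 hs) Y (fun b => ψ b.1 b.2) (fun v => (ms v, sgn v))
    (fun v hv => ?_) (fun τ => (cnt τ.1 : ℤ)) (fun τ hτ => ?_)
  · obtain ⟨τ, hτ, h2, h3⟩ := ((hm v).1 hv).2
    rw [List.mem_map]
    exact ⟨τ, hτ, by rw [cl, h2, h3]⟩
  · have h4 := hc 29 τ.1 τ.2 (hlen τ hτ) (hle τ hτ) (hsg τ hτ)
    rw [← h4]
    congr 2
    ext v
    rw [mem_filter, mem_filter, hm, cl, Prod.mk.injEq]
    constructor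
    · rintro ⟨⟨h2, -⟩, h3⟩
      exact ⟨h2, h3⟩
    · rintro ⟨h2, h3⟩
      exact ⟨⟨h2, ⟨τ, hτ, h3⟩⟩, h3⟩

set_option maxRecDepth 20000 in
theorem evl (hc : S_CNA) : S_EVL := fun ψ =>
  evl_of Tab X rfl tab_nodup tab_sorted tab_len tab_le tab_sgn hc ψ

end Pool.Agent.Helper36K9.EX
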